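import Mathlib

/-!
# Closed paths in a connected labelled graph

A connected graph with vertices `X` and edges `Y`, whose edges carry labels in a group: the labels
of the closed paths at a base point lie in a subgroup generated by `card Y - card X + 1` elements.
-/

open Finset

namespace Pool.Agent.H47.SAE

section graph

variable {F X Y : Type} [Group F] [Fintype X] [DecidableEq X] [Fintype Y]

/-- a spanning tree and its potential, step by step -/
theorem tree_step (x : Y → F) (s t : Y → X) (b : X)
    (hconn : ∀ A : Finset X, b ∈ A → A ≠ univ → ∃ y, (s y ∈ A ∧ t y ∉ A) ∨ (s y ∉ A ∧ t y ∈ A))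
    (n : ℕ) (hn : n + 1 ≤ Fintype.card X) :
    ∃ (A : Finset X) (g : X → F) (Tr : Finset Y), b ∈ A ∧ A.card = n + 1 ∧ g b = 1 ∧ Tr.card = n ∧
      ∀ y ∈ Tr, s y ∈ A ∧ t y ∈ A ∧ g (s y) * x y * (g (t y))⁻¹ = 1 := by
  classical
  induction n with
  | zero =>
    exact ⟨{b}, fun _ => 1, ∅, mem_singleton_self b, card_singleton b, rfl, rfl, by simp⟩
  | succ n ih =>
    obtain ⟨A, g, Tr, hb, hA, hgb, hTr, h⟩ := ih (by omega)
    have hne : A ≠ univ := by
      intro h1
      rw [h1, card_univ] at hA
      omega
    obtain ⟨y, hy⟩ := hconn A hb hne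
    have hyTr : y ∉ Tr := by
      intro h1
      have h2 := h y h1
      rcases hy with hy | hy
      · exact hy.2 h2.2.1
      · exact hy.1 h2.1
    rcases hy with ⟨hs, ht⟩ | ⟨hs, ht⟩
    · refine ⟨insert (t y) A, Function.update g (t y) (g (s y) * x y), insert y Tr,
        mem_insert_of_mem hb, ?_, ?_, ?_, ?_⟩
      · rw [card_insert_of_notMem ht, hA]
      · rw [Function.update_of_ne, hgb]
        rintro rfl
        exact ht hb
      · rw [card_insert_of_notMem hyTr, hTr]
      · intro z hz
        rcases mem_insert.1 hz with rfl | hz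
        · refine ⟨mem_insert_of_mem hs, mem_insert_self _ _, ?_⟩
          rw [Function.update_self, Function.update_of_ne, mul_inv_cancel]
          intro h1
          rw [h1] at hs
          exact ht hs
        · obtain ⟨h1, h2, h3⟩ := h z hz
          refine ⟨mem_insert_of_mem h1, mem_insert_of_mem h2, ?_⟩
          rw [Function.update_of_ne, Function.update_of_ne, h3]
          · intro h4
            rw [h4] at h2
            exact ht h2
          · intro h4
            rw [h4] at h1
            exact ht h1
    · refine ⟨insert (s y) A, Function.update g (s y) (g (t y) * (x y)⁻¹), insert y Tr,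
        mem_insert_of_mem hb, ?_, ?_, ?_, ?_⟩
      · rw [card_insert_of_notMem hs, hA]
      · rw [Function.update_of_ne, hgb]
        rintro rfl
        exact hs hb
      · rw [card_insert_of_notMem hyTr, hTr]
      · intro z hz
        rcases mem_insert.1 hz with rfl | hz
        · refine ⟨mem_insert_self _ _, mem_insert_of_mem ht, ?_⟩
          rw [Function.update_self, Function.update_of_ne, inv_mul_cancel_right, mul_inv_cancel]
          intro h1
          rw [h1] at ht
          exact hs ht
        · obtain ⟨h1, h2, h3⟩ := h z hz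
          refine ⟨mem_insert_of_mem h1, mem_insert_of_mem h2, ?_⟩
          rw [Function.update_of_ne, Function.update_of_ne, h3]
          · intro h4
            rw [h4] at h2
            exact hs h2
          · intro h4
            rw [h4] at h1
            exact hs h1

/-- generators for the closed paths -/
theorem graph_gen (x : Y → F) (s t : Y → X) (b : X)
    (hconn : ∀ A : Finset X, b ∈ A → A ≠ univ → ∃ y, (s y ∈ A ∧ t y ∉ A) ∨ (s y ∉ A ∧ t y ∈ A)) :
    ∃ (g : X → F) (T : Finset F), g b = 1 ∧ T.card + Fintype.card X ≤ Fintype.card Y + 1 ∧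
      ∀ y, g (s y) * x y * (g (t y))⁻¹ ∈ Subgroup.closure (T : Set F) := by
  classical
  have hX : 1 ≤ Fintype.card X := Fintype.card_pos_iff.2 ⟨b⟩
  obtain ⟨A, g, Tr, _, _, hgb, hTr, h⟩ := tree_step x s t b hconn (Fintype.card X - 1) (by omega)
  refine ⟨g, (univ \ Tr).image (fun y => g (s y) * x y * (g (t y))⁻¹), hgb, ?_, ?_⟩
  · have h1 := card_image_le (s := univ \ Tr) (f := fun y => g (s y) * x y * (g (t y))⁻¹)
    have h2 := card_sdiff_of_subset (subset_univ Tr)
    have h3 := card_le_univ Tr
    rw [card_univ] at h2
    omega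
  · intro y
    by_cases hy : y ∈ Tr
    · rw [(h y hy).2.2]
      exact one_mem _
    · apply Subgroup.subset_closure
      rw [mem_coe]
      exact mem_image_of_mem (fun y => g (s y) * x y * (g (t y))⁻¹)
        (mem_sdiff.2 ⟨mem_univ y, hy⟩)

end graph

/-- the label of a path -/
theorem path_mem {F X : Type} [Group F] (H : Subgroup F) (g : X → F) (c : ℕ → X) (l : ℕ → F)
    (n : ℕ) (h : ∀ k < n, g (c k) * l k * (g (c (k + 1)))⁻¹ ∈ H) :
    g (c 0) * ((List.range n).map l).prod * (g (c n))⁻¹ ∈ H := by
  induction n with
  | zero =>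
    simp
  | succ n ih =>
    have h1 := ih (fun k hk => h k (Nat.lt_succ_of_lt hk))
    have h2 := h n (Nat.lt_succ_self n)
    rw [List.range_succ, List.map_append, List.prod_append]
    have h3 := H.mul_mem h1 h2
    have e : g (c 0) * ((List.range n).map l).prod * (g (c n))⁻¹ *
        (g (c n) * l n * (g (c (n + 1)))⁻¹)
        = g (c 0) * (((List.range n).map l).prod * ([n].map l).prod) * (g (c (n + 1)))⁻¹ := by
      simp only [List.map_cons, List.map_nil, List.prod_cons, List.prod_nil, mul_one]
      group
    rw [e] at h3
    exact h3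

/-- the label of a path, in the opposite order -/
theorem path_mem' {F X : Type} [Group F] (H : Subgroup F) (g : X → F) (c : ℕ → X) (l : ℕ → F)
    (n : ℕ) (h : ∀ k < n, (g (c (k + 1))) * l k * (g (c k))⁻¹ ∈ H) :
    g (c n) * ((List.range n).reverse.map l).prod * (g (c 0))⁻¹ ∈ H := by
  induction n with
  | zero =>
    simp
  | succ n ih =>
    have h1 := ih (fun k hk => h k (Nat.lt_succ_of_lt hk))
    have h2 := h n (Nat.lt_succ_self n)
    rw [List.range_succ, List.reverse_append, List.map_append, List.prod_append]
    have h3 := H.mul_mem h2 h1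
    have e : (g (c (n + 1)) * l n * (g (c n))⁻¹) *
        (g (c n) * ((List.range n).reverse.map l).prod * (g (c 0))⁻¹)
        = g (c (n + 1)) * ((([n] : List ℕ).reverse.map l).prod
          * ((List.range n).reverse.map l).prod) * (g (c 0))⁻¹ := by
      simp only [List.reverse_cons, List.reverse_nil, List.nil_append, List.map_cons, List.map_nil,
        List.prod_cons, List.prod_nil, mul_one]
      group
    rw [e] at h3
    exact h3

end Pool.Agent.H47.SAE
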