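import Mathlib

/-!
# The star inequality

`ρ` is a monotone submodular set function on the vertices of a finite labelled graph with
`ρ {a} = L`, and for a set `B` of edges of one label the sets of tails and of heads of `B` have the
same value.  If every quotient of the labelled graph satisfies `#edges - #vertices ≥ κ - 1` then
`∑ i, ρ (tails of the edges of label i) - ρ (all vertices) ≥ (κ - 1) L`.
-/

open Finset

namespace Pool.Agent.H47.SAE

section part

variable {S : Type} [DecidableEq S]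

/-- `π` is a partition of `S` -/
structure Part (π : Finset (Finset S)) : Prop where
  ne : ∀ A ∈ π, A.Nonempty
  cov : ∀ s, ∃ A ∈ π, s ∈ A
  dis : ∀ A ∈ π, ∀ B ∈ π, ∀ s, s ∈ A → s ∈ B → A = B

/-- the cost of a partition -/
def cost (g : Finset S → ℝ) (lam : ℝ) (π : Finset (Finset S)) : ℝ := ∑ A ∈ π, (g A - lam)

omit [DecidableEq S] in
theorem cost_change (g : Finset S → ℝ) (lam mu : ℝ) (π : Finset (Finset S)) :
    cost g mu π = cost g lam π - (mu - lam) * π.card := by
  unfold cost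
  rw [Finset.sum_sub_distrib, Finset.sum_sub_distrib, Finset.sum_const, Finset.sum_const,
    nsmul_eq_mul, nsmul_eq_mul]
  ring

/-- an optimal partition with as few blocks as possible -/
structure Opt (Q : Finset (Finset S) → Prop) (g : Finset S → ℝ) (lam : ℝ)
    (π : Finset (Finset S)) : Prop where
  mem : Q π
  le : ∀ π', Q π' → cost g lam π ≤ cost g lam π'
  few : ∀ π', Q π' → cost g lam π' = cost g lam π → π.card ≤ π'.card

omit [DecidableEq S] in
theorem exists_opt [Fintype S] (Q : Finset (Finset S) → Prop) (hne : ∃ π, Q π)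
    (g : Finset S → ℝ) (lam : ℝ) : ∃ π, Opt Q g lam π := by
  classical
  obtain ⟨π0, h0⟩ := hne
  obtain ⟨π1, h1, hmin⟩ := (univ.filter Q).exists_min_image (cost g lam)
    ⟨π0, mem_filter.2 ⟨mem_univ _, h0⟩⟩
  have h1' : Q π1 := (mem_filter.1 h1).2
  obtain ⟨π2, h2, hmin2⟩ := (univ.filter (fun π => Q π ∧ cost g lam π = cost g lam π1)).exists_min_image
    (fun π => π.card) ⟨π1, mem_filter.2 ⟨mem_univ _, h1', rfl⟩⟩
  have h2' := (mem_filter.1 h2).2
  refine ⟨π2, h2'.1, ?_, ?_⟩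
  · intro π' h'
    rw [h2'.2]
    exact hmin π' (mem_filter.2 ⟨mem_univ _, h'⟩)
  · intro π' h' he
    exact hmin2 π' (mem_filter.2 ⟨mem_univ _, h', he.trans h2'.2⟩)

theorem part_singletons [Fintype S] : Part (univ.image (fun s : S => ({s} : Finset S))) := by
  refine ⟨?_, ?_, ?_⟩
  · intro A hA
    obtain ⟨s, _, rfl⟩ := mem_image.1 hA
    exact singleton_nonempty s
  · intro s
    exact ⟨{s}, mem_image.2 ⟨s, mem_univ _, rfl⟩, mem_singleton_self s⟩
  · intro A hA B hB s hsA hsB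
    obtain ⟨a, _, rfl⟩ := mem_image.1 hA
    obtain ⟨b, _, rfl⟩ := mem_image.1 hB
    rw [mem_singleton] at hsA hsB
    rw [← hsA, ← hsB]

/-- submodularity along a family -/
theorem sub_union (ρ : Finset S → ℝ) (hmono : ∀ A B, A ⊆ B → ρ A ≤ ρ B)
    (hsub : ∀ A B, ρ (A ∪ B) + ρ (A ∩ B) ≤ ρ A + ρ B) (T : Finset S) (F : Finset (Finset S)) :
    ρ (T ∪ F.biUnion id) ≤ ρ T + ∑ A ∈ F, (ρ A - ρ (T ∩ A)) := by
  classical
  induction F using Finset.induction_on with
  | empty => simp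
  | insert A F hA ih =>
    rw [Finset.biUnion_insert, Finset.sum_insert hA]
    have e : T ∪ (id A ∪ F.biUnion id) = (T ∪ F.biUnion id) ∪ A := by
      ext s
      simp only [mem_union, id]
      tauto
    rw [e]
    have h1 := hsub (T ∪ F.biUnion id) A
    have h2 : ρ (T ∩ A) ≤ ρ ((T ∪ F.biUnion id) ∩ A) := by
      apply hmono
      intro s hs
      rw [mem_inter] at hs ⊢
      exact ⟨mem_union_left _ hs.1, hs.2⟩
    linarith

theorem le_cost_zero (ρ : Finset S → ℝ) [Fintype S] (hmono : ∀ A B, A ⊆ B → ρ A ≤ ρ B)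
    (hsub : ∀ A B, ρ (A ∪ B) + ρ (A ∩ B) ≤ ρ A + ρ B) (hemp : ρ ∅ = 0)
    (π : Finset (Finset S)) (hπ : Part π) : ρ univ ≤ cost ρ 0 π := by
  have h := sub_union ρ hmono hsub ∅ π
  have e : (∅ : Finset S) ∪ π.biUnion id = univ := by
    ext s
    simp only [mem_union, mem_biUnion, id, mem_univ, iff_true]
    right
    exact hπ.cov s
  rw [e, hemp, zero_add] at h
  refine le_trans h (le_of_eq ?_)
  unfold cost
  apply Finset.sum_congr rfl
  intro A _
  rw [empty_inter, hemp]

end part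

section star

variable {V E I : Type} [DecidableEq V] [DecidableEq E]

/-- partitions of the edges into sets of edges of one label -/
def EPart (lab : E → I) (π : Finset (Finset E)) : Prop :=
  Part π ∧ ∀ A ∈ π, ∀ e ∈ A, ∀ e' ∈ A, lab e = lab e'

/-- uncrossing -/
theorem uncross (ρ : Finset V → ℝ) (hmono : ∀ A B, A ⊆ B → ρ A ≤ ρ B)
    (hsub : ∀ A B, ρ (A ∪ B) + ρ (A ∩ B) ≤ ρ A + ρ B) (lab : E → I) (g : Finset E → ℝ)
    (τ : E → V) (hg : ∀ B : Finset E, (∀ e ∈ B, ∀ e' ∈ B, lab e = lab e') → g B = ρ (B.image τ))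
    (lam : ℝ) (πV : Finset (Finset V)) (πE : Finset (Finset E)) (hV : Opt Part ρ lam πV)
    (hE : Opt (EPart lab) g lam πE) (P : Finset E) (hP : P ∈ πE) :
    ∃ A ∈ πV, ∀ e ∈ P, τ e ∈ A := by
  classical
  have hPart := hE.mem.1
  obtain ⟨e0, he0⟩ := hPart.ne P hP
  obtain ⟨A0, hA0, he0A⟩ := hV.mem.cov (τ e0)
  let T : Finset V := P.image τ
  let B1 : Finset (Finset V) := πV.filter (fun A => (A ∩ T).Nonempty)
  have hB1 : ∀ A, A ∈ B1 ↔ A ∈ πV ∧ (A ∩ T).Nonempty := fun A => mem_filter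
  have hin : ∀ e ∈ P, ∀ A ∈ πV, τ e ∈ A → A ∈ B1 := by
    intro e he A hA hτ
    exact (hB1 A).2 ⟨hA, τ e, mem_inter.2 ⟨hτ, mem_image_of_mem τ he⟩⟩
  by_cases hc : B1.card ≤ 1
  · refine ⟨A0, hA0, ?_⟩
    intro e he
    obtain ⟨A, hA, heA⟩ := hV.mem.cov (τ e)
    have h1 : A = A0 := Finset.card_le_one.1 hc A (hin e he A hA heA) A0 (hin e0 he0 A0 hA0 he0A)
    rw [← h1]
    exact heA
  exfalso
  have hA0B : A0 ∈ B1 := hin e0 he0 A0 hA0 he0A
  -- merge the blocks which meet `T`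
  let U : Finset V := B1.biUnion id
  let R : Finset (Finset V) := πV \ B1
  have hUR : U ∉ R := by
    intro h
    rw [mem_sdiff] at h
    have h1 : A0 = U := hV.mem.dis A0 hA0 U h.1 (τ e0) he0A
      (mem_biUnion.2 ⟨A0, hA0B, he0A⟩)
    exact h.2 (h1 ▸ hA0B)
  have hB1sub : B1 ⊆ πV := filter_subset _ _
  have hπ' : Part (insert U R) := by
    refine ⟨?_, ?_, ?_⟩
    · intro A hA
      rcases mem_insert.1 hA with rfl | hA
      · exact ⟨τ e0, mem_biUnion.2 ⟨A0, hA0B, he0A⟩⟩
      · exact hV.mem.ne A (mem_sdiff.1 hA).1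
    · intro s
      obtain ⟨A, hA, hs⟩ := hV.mem.cov s
      by_cases h : A ∈ B1
      · exact ⟨U, mem_insert_self _ _, mem_biUnion.2 ⟨A, h, hs⟩⟩
      · exact ⟨A, mem_insert_of_mem (mem_sdiff.2 ⟨hA, h⟩), hs⟩
    · have key : ∀ B ∈ R, ∀ s, s ∈ U → s ∈ B → False := by
        intro B hB s hsU hsB
        obtain ⟨A, hA, hsA⟩ := mem_biUnion.1 hsU
        rw [mem_sdiff] at hB
        have h1 : A = B := hV.mem.dis A (hB1sub hA) B hB.1 s hsA hsB
        exact hB.2 (h1 ▸ hA)
      intro A hA B hB s hsA hsB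
      rcases mem_insert.1 hA with hA | hA <;> rcases mem_insert.1 hB with hB | hB
      · rw [hA, hB]
      · rw [hA] at hsA
        exact (key B hB s hsA hsB).elim
      · rw [hB] at hsB
        exact (key A hA s hsB hsA).elim
      · exact hV.mem.dis A (mem_sdiff.1 hA).1 B (mem_sdiff.1 hB).1 s hsA hsB
  have hcard : (insert U R).card < πV.card := by
    rw [card_insert_of_notMem hUR, card_sdiff_of_subset hB1sub]
    have h1 := card_le_card hB1sub
    omega
  have hcostV : cost ρ lam πV = ∑ A ∈ B1, (ρ A - lam) + ∑ A ∈ R, (ρ A - lam) := by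
    unfold cost
    rw [add_comm]
    exact (Finset.sum_sdiff hB1sub).symm
  have hcost' : cost ρ lam (insert U R) = (ρ U - lam) + ∑ A ∈ R, (ρ A - lam) := by
    unfold cost
    rw [sum_insert hUR]
  -- split the block `P`
  let pc : Finset V → Finset E := fun A => P.filter (fun e => τ e ∈ A)
  have hpc : ∀ A ∈ B1, (pc A).Nonempty := by
    intro A hA
    obtain ⟨v, hv⟩ := ((hB1 A).1 hA).2
    obtain ⟨e, he, hev⟩ := mem_image.1 (mem_inter.1 hv).2
    refine ⟨e, mem_filter.2 ⟨he, ?_⟩⟩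
    rw [hev]
    exact (mem_inter.1 hv).1
  have hpinj : ∀ A ∈ B1, ∀ B ∈ B1, pc A = pc B → A = B := by
    intro A hA B hB h
    obtain ⟨e, he⟩ := hpc A hA
    have he' : e ∈ pc B := h ▸ he
    exact hV.mem.dis A (hB1sub hA) B (hB1sub hB) (τ e) (mem_filter.1 he).2 (mem_filter.1 he').2
  have hdisj : Disjoint (πE.erase P) (B1.image pc) := by
    rw [Finset.disjoint_left]
    intro Q hQ hQ'
    obtain ⟨A, hA, rfl⟩ := mem_image.1 hQ'
    obtain ⟨e, he⟩ := hpc A hA
    rw [mem_erase] at hQ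
    exact hQ.1 (hPart.dis _ hQ.2 P hP e he (mem_filter.1 he).1)
  have hπE' : EPart lab (πE.erase P ∪ B1.image pc) := by
    refine ⟨⟨?_, ?_, ?_⟩, ?_⟩
    · intro Q hQ
      rcases mem_union.1 hQ with hQ | hQ
      · exact hPart.ne Q (mem_of_mem_erase hQ)
      · obtain ⟨A, hA, rfl⟩ := mem_image.1 hQ
        exact hpc A hA
    · intro e
      obtain ⟨Q, hQ, heQ⟩ := hPart.cov e
      by_cases h : Q = P
      · rw [h] at heQ
        obtain ⟨A, hA, heA⟩ := hV.mem.cov (τ e)
        exact ⟨pc A, mem_union_right _ (mem_image_of_mem pc (hin e heQ A hA heA)),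
          mem_filter.2 ⟨heQ, heA⟩⟩
      · exact ⟨Q, mem_union_left _ (mem_erase.2 ⟨h, hQ⟩), heQ⟩
    · have key : ∀ Q ∈ πE.erase P, ∀ A e, e ∈ Q → e ∈ pc A → False := by
        intro Q hQ A e heQ heA
        rw [mem_erase] at hQ
        exact hQ.1 (hPart.dis Q hQ.2 P hP e heQ (mem_filter.1 heA).1)
      intro Q hQ Q' hQ' e heQ heQ'
      rcases mem_union.1 hQ with hQ | hQ <;> rcases mem_union.1 hQ' with hQ' | hQ'
      · exact hPart.dis Q (mem_of_mem_erase hQ) Q' (mem_of_mem_erase hQ') e heQ heQ'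
      · obtain ⟨A, hA, rfl⟩ := mem_image.1 hQ'
        exact (key Q hQ A e heQ heQ').elim
      · obtain ⟨A, hA, rfl⟩ := mem_image.1 hQ
        exact (key Q' hQ' A e heQ' heQ).elim
      · obtain ⟨A, hA, rfl⟩ := mem_image.1 hQ
        obtain ⟨B, hB, rfl⟩ := mem_image.1 hQ'
        have h1 : A = B := hV.mem.dis A (hB1sub hA) B (hB1sub hB) (τ e) (mem_filter.1 heQ).2
          (mem_filter.1 heQ').2
        rw [h1]
    · intro Q hQ e he e' he'
      rcases mem_union.1 hQ with hQ | hQ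
      · exact hE.mem.2 Q (mem_of_mem_erase hQ) e he e' he'
      · obtain ⟨A, hA, rfl⟩ := mem_image.1 hQ
        exact hE.mem.2 P hP e (mem_filter.1 he).1 e' (mem_filter.1 he').1
  have hgA : ∀ A, g (pc A) = ρ (T ∩ A) := by
    intro A
    rw [hg (pc A) (fun e he e' he' => hE.mem.2 P hP e (mem_filter.1 he).1 e' (mem_filter.1 he').1)]
    congr 1
    ext v
    constructor
    · intro hv
      obtain ⟨e, he, rfl⟩ := mem_image.1 hv
      exact mem_inter.2 ⟨mem_image_of_mem τ (mem_filter.1 he).1, (mem_filter.1 he).2⟩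
    · intro hv
      obtain ⟨e, he, hev⟩ := mem_image.1 (mem_inter.1 hv).1
      refine mem_image.2 ⟨e, mem_filter.2 ⟨he, ?_⟩, hev⟩
      rw [hev]
      exact (mem_inter.1 hv).2
  have hgP : g P = ρ T := hg P (hE.mem.2 P hP)
  have hcE : cost g lam (πE.erase P ∪ B1.image pc)
      = ∑ Q ∈ πE.erase P, (g Q - lam) + ∑ A ∈ B1, (ρ (T ∩ A) - lam) := by
    unfold cost
    rw [sum_union hdisj, sum_image (fun A hA B hB h => hpinj A hA B hB h)]
    congr 1
    apply sum_congr rfl
    intro A _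
    rw [hgA]
  have hcE0 : cost g lam πE = (g P - lam) + ∑ Q ∈ πE.erase P, (g Q - lam) := by
    unfold cost
    rw [add_comm, Finset.sum_erase_add _ _ hP]
  have h1 := hE.le _ hπE'
  rw [hcE, hcE0, hgP] at h1
  have h2 := sub_union ρ hmono hsub T B1
  have h3 : ρ U ≤ ρ (T ∪ B1.biUnion id) := hmono _ _ subset_union_right
  have h4 : ∑ A ∈ B1, (ρ A - ρ (T ∩ A)) = ∑ A ∈ B1, (ρ A - lam) - ∑ A ∈ B1, (ρ (T ∩ A) - lam) := by
    rw [← Finset.sum_sub_distrib]
    apply sum_congr rfl
    intro A _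
    ring
  have h5 : cost ρ lam (insert U R) ≤ cost ρ lam πV := by
    rw [hcost', hcostV]
    linarith
  have h6 := hV.few _ hπ' (le_antisymm h5 (hV.le _ hπ'))
  omega

/-- one value of the parameter: the optimal partitions give a quotient graph -/
theorem count_ge [Fintype V] [Fintype E] (ρ : Finset V → ℝ)
    (hmono : ∀ A B, A ⊆ B → ρ A ≤ ρ B)
    (hsub : ∀ A B, ρ (A ∪ B) + ρ (A ∩ B) ≤ ρ A + ρ B) (tail head : E → V) (lab : E → I) (κ : ℕ)
    (hht : ∀ B : Finset E, (∀ e ∈ B, ∀ e' ∈ B, lab e = lab e') →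
      ρ (B.image tail) = ρ (B.image head))
    (hgraph : ∀ (X Y : Type) [Fintype X] [Fintype Y] (p : V → X) (q : E → Y),
      Function.Surjective p → Function.Surjective q →
      (∀ e e', q e = q e' → lab e = lab e' ∧ p (tail e) = p (tail e') ∧
        p (head e) = p (head e')) → Fintype.card X + κ ≤ Fintype.card Y + 1)
    (lam : ℝ) (πV : Finset (Finset V)) (πE : Finset (Finset E)) (hV : Opt Part ρ lam πV)
    (hE : Opt (EPart lab) (fun B => ρ (B.image tail)) lam πE) : πV.card + κ ≤ πE.card + 1 := by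
  classical
  choose p hp hpm using hV.mem.cov
  choose q hq hqm using hE.mem.1.cov
  have hpu : ∀ v, ∀ A ∈ πV, v ∈ A → p v = A := fun v A hA hv => hV.mem.dis _ (hp v) A hA v (hpm v) hv
  have hqu : ∀ e, ∀ A ∈ πE, e ∈ A → q e = A := fun e A hA he =>
    hE.mem.1.dis _ (hq e) A hA e (hqm e) he
  have h := hgraph {A // A ∈ πV} {A // A ∈ πE} (fun v => ⟨p v, hp v⟩) (fun e => ⟨q e, hq e⟩) ?_ ?_ ?_
  · simpa only [Fintype.card_coe] using h
  · rintro ⟨A, hA⟩
    obtain ⟨v, hv⟩ := hV.mem.ne A hA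
    exact ⟨v, Subtype.ext (hpu v A hA hv)⟩
  · rintro ⟨A, hA⟩
    obtain ⟨e, he⟩ := hE.mem.1.ne A hA
    exact ⟨e, Subtype.ext (hqu e A hA he)⟩
  · intro e e' hee
    have hee' : q e = q e' := congrArg Subtype.val hee
    have he' : e' ∈ q e := by
      rw [hee']
      exact hqm e'
    refine ⟨hE.mem.2 (q e) (hq e) e (hqm e) e' he', ?_, ?_⟩
    · obtain ⟨A, hA, hAe⟩ := uncross ρ hmono hsub lab (fun B => ρ (B.image tail)) tail
        (fun B _ => rfl) lam πV πE hV hE (q e) (hq e)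
      apply Subtype.ext
      show p (tail e) = p (tail e')
      rw [hpu _ A hA (hAe e (hqm e)), hpu _ A hA (hAe e' he')]
    · obtain ⟨A, hA, hAe⟩ := uncross ρ hmono hsub lab (fun B => ρ (B.image tail)) head
        (fun B hB => hht B hB) lam πV πE hV hE (q e) (hq e)
      apply Subtype.ext
      show p (head e) = p (head e')
      rw [hpu _ A hA (hAe e (hqm e)), hpu _ A hA (hAe e' he')]

/-- the partition of the edges by labels -/
theorem cost_labels [Fintype V] [Fintype E] [Fintype I] [DecidableEq I] (ρ : Finset V → ℝ)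
    (hemp : ρ ∅ = 0) (hmono : ∀ A B, A ⊆ B → ρ A ≤ ρ B) (tail : E → V) (lab : E → I)
    (πE : Finset (Finset E)) (hE : Opt (EPart lab) (fun B => ρ (B.image tail)) 0 πE) :
    cost (fun B => ρ (B.image tail)) 0 πE
      ≤ ∑ i, ρ ((univ.filter (fun e => lab e = i)).image tail) := by
  classical
  let F : I → Finset E := fun i => univ.filter (fun e => lab e = i)
  have hF : ∀ i e, e ∈ F i ↔ lab e = i := by
    intro i e
    simp [F]
  let J : Finset I := univ.image lab
  have hJ : ∀ i ∈ J, (F i).Nonempty := by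
    intro i hi
    obtain ⟨e, _, he⟩ := mem_image.1 hi
    exact ⟨e, (hF i e).2 he⟩
  have hpart : EPart lab (J.image F) := by
    refine ⟨⟨?_, ?_, ?_⟩, ?_⟩
    · intro A hA
      obtain ⟨i, hi, rfl⟩ := mem_image.1 hA
      exact hJ i hi
    · intro e
      exact ⟨F (lab e), mem_image_of_mem F (mem_image_of_mem lab (mem_univ e)), (hF _ e).2 rfl⟩
    · intro A hA B hB e heA heB
      obtain ⟨i, hi, rfl⟩ := mem_image.1 hA
      obtain ⟨j, hj, rfl⟩ := mem_image.1 hB
      rw [← (hF i e).1 heA, ← (hF j e).1 heB]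
    · intro A hA e he e' he'
      obtain ⟨i, hi, rfl⟩ := mem_image.1 hA
      rw [(hF i e).1 he, (hF i e').1 he']
  refine le_trans (hE.le _ hpart) ?_
  unfold cost
  rw [sum_image]
  · have h1 : ∑ i ∈ J, ((fun B : Finset E => ρ (B.image tail)) (F i) - 0)
        = ∑ i ∈ J, ρ ((F i).image tail) := by
      apply sum_congr rfl
      intro i _
      simp only [sub_zero]
    rw [h1]
    apply Finset.sum_le_sum_of_subset_of_nonneg (subset_univ J)
    intro i _ _
    rw [← hemp]
    exact hmono _ _ (empty_subset _)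
  · intro i hi j hj hij
    obtain ⟨e, he⟩ := hJ i hi
    have he' : e ∈ F j := hij ▸ he
    rw [← (hF i e).1 he, ← (hF j e).1 he']

/-- The star inequality. -/
theorem star [Fintype V] [Fintype E] [Fintype I] [DecidableEq I] (ρ : Finset V → ℝ) (L : ℝ)
    (tail head : E → V) (lab : E → I) (κ : ℕ) (hL : 0 ≤ L)
    (hmono : ∀ A B, A ⊆ B → ρ A ≤ ρ B)
    (hsub : ∀ A B, ρ (A ∪ B) + ρ (A ∩ B) ≤ ρ A + ρ B) (hemp : ρ ∅ = 0)
    (hsing : ∀ a, ρ {a} = L)
    (hht : ∀ B : Finset E, (∀ e ∈ B, ∀ e' ∈ B, lab e = lab e') →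
      ρ (B.image tail) = ρ (B.image head))
    (hgraph : ∀ (X Y : Type) [Fintype X] [Fintype Y] (p : V → X) (q : E → Y),
      Function.Surjective p → Function.Surjective q →
      (∀ e e', q e = q e' → lab e = lab e' ∧ p (tail e) = p (tail e') ∧
        p (head e) = p (head e')) → Fintype.card X + κ ≤ Fintype.card Y + 1) :
    ρ univ + ((κ : ℝ) - 1) * L ≤ ∑ i, ρ ((univ.filter (fun e => lab e = i)).image tail) := by
  classical
  let g : Finset E → ℝ := fun B => ρ (B.image tail)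
  have hexV : ∀ lam, ∃ π, Opt (Part : Finset (Finset V) → Prop) ρ lam π := fun lam =>
    exists_opt _ ⟨_, part_singletons⟩ ρ lam
  have hexE : ∀ lam, ∃ π, Opt (EPart lab) g lam π := by
    intro lam
    refine exists_opt _ ⟨_, part_singletons, ?_⟩ g lam
    intro A hA e he e' he'
    obtain ⟨a, _, rfl⟩ := mem_image.1 hA
    rw [mem_singleton] at he he'
    rw [he, he']
  choose πV hV using hexV
  choose πE hE using hexE
  -- the optimal costs
  have hstepE : ∀ lam mu, lam ≤ mu →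
      cost g mu (πE mu) ≤ cost g lam (πE lam) - (mu - lam) * (πE lam).card := by
    intro lam mu _
    rw [← cost_change]
    exact (hE mu).le _ (hE lam).mem
  have hstepV : ∀ lam mu, lam ≤ mu →
      cost ρ lam (πV lam) ≤ cost ρ mu (πV mu) + (mu - lam) * (πV mu).card := by
    intro lam mu _
    have h1 := (hV lam).le _ (hV mu).mem
    rw [cost_change ρ mu lam (πV mu)] at h1
    linarith
  have hcount : ∀ lam, ((πV lam).card : ℝ) + κ ≤ (πE lam).card + 1 := by
    intro lam
    have h1 := count_ge ρ hmono hsub tail head lab κ hht hgraph lam (πV lam) (πE lam) (hV lam)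
      (hE lam)
    exact_mod_cast h1
  have hVle : ∀ lam, ((πV lam).card : ℝ) ≤ (Fintype.card (Finset V) : ℝ) := by
    intro lam
    exact_mod_cast Finset.card_le_univ (πV lam)
  -- telescoping
  have htel : ∀ (δ : ℝ), 0 ≤ δ → ∀ M : ℕ,
      (cost ρ 0 (πV 0) - cost ρ (M * δ) (πV (M * δ))) + M * (((κ : ℝ) - 1) * δ)
        ≤ (cost g 0 (πE 0) - cost g (M * δ) (πE (M * δ)))
          + δ * ((πV (M * δ)).card - (πV 0).card) := by
    intro δ hδ M
    induction M with
    | zero =>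
      simp
    | succ M ih =>
      have hle : (M : ℝ) * δ ≤ ((M + 1 : ℕ) : ℝ) * δ := by
        apply mul_le_mul_of_nonneg_right _ hδ
        exact_mod_cast Nat.le_succ M
      have h1 := hstepE (M * δ) ((M + 1 : ℕ) * δ) hle
      have h2 := hstepV (M * δ) ((M + 1 : ℕ) * δ) hle
      have h3 := hcount (M * δ)
      have h4 : (((M + 1 : ℕ) : ℝ) * δ - M * δ) = δ := by
        push_cast
        ring
      rw [h4] at h1 h2
      have h5 : ((M + 1 : ℕ) : ℝ) * (((κ : ℝ) - 1) * δ)
          = M * (((κ : ℝ) - 1) * δ) + δ * ((κ : ℝ) - 1) := by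
        push_cast
        ring
      rw [h5]
      have h6 : δ * ((πV (M * δ)).card + (κ : ℝ)) ≤ δ * ((πE (M * δ)).card + 1) :=
        mul_le_mul_of_nonneg_left h3 hδ
      linarith
  have hEL : 0 ≤ cost g L (πE L) := by
    unfold cost
    apply Finset.sum_nonneg
    intro A hA
    obtain ⟨e, he⟩ := (hE L).mem.1.ne A hA
    have h1 : ρ {tail e} ≤ ρ (A.image tail) := by
      apply hmono
      intro v hv
      rw [mem_singleton] at hv
      rw [hv]
      exact mem_image_of_mem tail he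
    rw [hsing] at h1
    show 0 ≤ ρ (A.image tail) - L
    linarith
  have hVL : cost ρ L (πV L) ≤ 0 := by
    refine le_trans ((hV L).le _ part_singletons) (le_of_eq ?_)
    unfold cost
    apply Finset.sum_eq_zero
    intro A hA
    obtain ⟨a, _, rfl⟩ := mem_image.1 hA
    rw [hsing, sub_self]
  have hV0 : ρ univ ≤ cost ρ 0 (πV 0) := le_cost_zero ρ hmono hsub hemp _ (hV 0).mem
  have hE0 := cost_labels ρ hemp hmono tail lab (πE 0) (hE 0)
  -- the limit
  apply le_of_forall_pos_le_add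
  intro ε hε
  obtain ⟨M, hM⟩ := exists_nat_gt (L * (Fintype.card (Finset V) : ℝ) / ε)
  have hC : (0 : ℝ) ≤ (Fintype.card (Finset V) : ℝ) := Nat.cast_nonneg _
  have hMpos : (0 : ℝ) < M := lt_of_le_of_lt (div_nonneg (mul_nonneg hL hC) hε.le) hM
  have h1 := htel (L / M) (div_nonneg hL hMpos.le) M
  have h2 : (M : ℝ) * (L / M) = L := by
    field_simp
  have h3 : (M : ℝ) * (((κ : ℝ) - 1) * (L / M)) = ((κ : ℝ) - 1) * L := by
    field_simp
  rw [h2, h3] at h1
  have h4 : L / M * ((πV L).card - (πV 0).card) ≤ ε := by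
    have h5 : ((πV L).card : ℝ) - (πV 0).card ≤ (Fintype.card (Finset V) : ℝ) := by
      have := hVle L
      have h6 : (0 : ℝ) ≤ (πV 0).card := Nat.cast_nonneg _
      linarith
    have h7 : L / M * (((πV L).card : ℝ) - (πV 0).card) ≤ L / M * (Fintype.card (Finset V) : ℝ) :=
      mul_le_mul_of_nonneg_left h5 (div_nonneg hL hMpos.le)
    have h8 : L / M * (Fintype.card (Finset V) : ℝ) ≤ ε := by
      rw [div_mul_eq_mul_div, div_le_iff₀ hMpos]
      rw [div_lt_iff₀ hε] at hM
      linarith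
    linarith
  have h9 : cost g 0 (πE 0) ≤ ∑ i, ρ ((univ.filter (fun e => lab e = i)).image tail) := hE0
  linarith

end star

end Pool.Agent.H47.SAE
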